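import Pool.Agent.helper7.ZB.SpecT
import Pool.Agent.helper59.FI.Base

set_option autoImplicit false

namespace Pool.Agent.ZB

open Pool.Agent.helper58.DC Pool.Agent.DI Pool.Agent.GR Pool.Agent.OB Pool.Agent.DR Pool.Agent.FI Pool.Agent.FI3 Pool.Agent.FI4 Pool.Agent.FI4I Pool.Agent.LE Pool.Agent.L5 Pool.Agent.NAB

open Classical in
/-- The push forward of `e` along `π`. -/
noncomputable def ZDD_eb {G Gb : Type} [Group G] [Group Gb] (π : G →* Gb) (e : G → ℂ) (b : Gb) : ℂ :=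
  ∑ᶠ y, if π y = b then e y else 0

theorem ZDD_cc {G Gb : Type} [Group G] [Finite G] [Group Gb] [Finite Gb] (π : G →* Gb) (e : G → ℂ) (χ' : Gb → ℂ) :
    cc χ' (ZDD_eb π e) = cc (fun g => χ' (π g)) e := by
  classical
  have := Fintype.ofFinite G
  have := Fintype.ofFinite Gb
  unfold cc
  change (∑ᶠ (x : Gb), ZDD_eb π e x * χ' x) / χ' 1 = (∑ᶠ (x : G), e x * χ' (π x)) / χ' (π 1)
  rw [map_one]
  congr 1
  rw [finsum_eq_sum_of_fintype, finsum_eq_sum_of_fintype]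
  have e1 : ∀ b ∈ (Finset.univ : Finset Gb), ZDD_eb π e b * χ' b = ∑ y : G, (if π y = b then e y else 0) * χ' b := by
    intro b _
    unfold ZDD_eb
    rw [finsum_eq_sum_of_fintype, Finset.sum_mul]
  rw [Finset.sum_congr rfl e1, Finset.sum_comm]
  apply Finset.sum_congr rfl
  intro y _
  rw [Finset.sum_eq_single (π y)]
  · rw [if_pos rfl]
  · intro b _ hb
    rw [if_neg (Ne.symm hb), zero_mul]
  · intro hb
    exact absurd (Finset.mem_univ _) hb

theorem ZDD_inv {G Gb : Type} [Group G] [Finite G] [Group Gb] (π : G →* Gb) (hs : Function.Surjective π) (e : G → ℂ)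
    (he : ∀ a x, e (a * x * a⁻¹) = e x) (h b : Gb) : ZDD_eb π e (h * b * h⁻¹) = ZDD_eb π e b := by
  classical
  obtain ⟨a, rfl⟩ := hs h
  unfold ZDD_eb
  rw [← finsum_comp_equiv (MulAut.conj a).toEquiv]
  apply finsum_congr
  intro y
  have h1 : (MulAut.conj a).toEquiv y = a * y * a⁻¹ := rfl
  rw [h1, map_mul, map_mul, map_inv, he]
  by_cases hy : π y = b
  · rw [if_pos hy, if_pos (by rw [hy])]
  · rw [if_neg hy, if_neg]
    intro hc
    apply hy
    have := mul_right_cancel hc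
    exact mul_left_cancel this

theorem ZDD (hDUN : DUN_stmt) (hSYL : SYL_stmt) (hDCM : DCM_stmt) (hBLE : BLE_stmt) (hCFX : CFX_stmt) (hKG1 : KG1_stmt)
    (hKIN : KIN_stmt) : ZDD_stmt := by
  classical
  intro p M h G Gb _ _ _ _ R₁ π hQ χ hχ D x hD χ' hχ' hInd D' x' hD'
  have hF : Fact p.Prime := ⟨h.pr⟩
  have hχT : χ ∈ IrrOn (⊤ : Subgroup G) := IrrOn_top.2 hχ
  have hχ'T : χ' ∈ IrrOn (⊤ : Subgroup Gb) := IrrOn_top.2 hχ'
  have hψ : (fun g => χ' (π g)) ∈ IrrOn (⊤ : Subgroup G) := by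
    have h1 := (hKIN p G Gb R₁ π hQ).2.1 ⊤ χ' hχ'T
    rwa [Subgroup.comap_top] at h1
  have hSB : SB M (⊤ : Subgroup G) (fun g => χ' (π g)) χ := (SB_top_iff h).2 hInd
  obtain ⟨-, b2, b3, -, b5, -, -, b8⟩ := hBLE p M h G ⊤ ⊤ le_rfl χ
  rw [b8] at b2 b3 b5
  have hmem : (fun g => χ' (π g)) ∈ Bl M (⊤ : Subgroup G) χ := ⟨hψ, hSB⟩
  have hcc : cc χ' (ZDD_eb π (eS ⊤ (Bl M ⊤ χ))) = 1 := by
    rw [ZDD_cc]
    exact b5 _ hmem
  have hce : ∀ a x, (eS ⊤ (Bl M ⊤ χ)) (a * x * a⁻¹) = (eS ⊤ (Bl M ⊤ χ)) x := fun a x => b2.1 a (Subgroup.mem_top a) x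
  have hint : ∀ b, IntAt M (ZDD_eb π (eS ⊤ (Bl M ⊤ χ)) b) := by
    intro b
    apply IntAt.finsum h
    intro y
    split_ifs
    · exact b3 y
    · exact IntAt.zero h
  -- a class
  have hex : ∃ b, ¬ InM M (ZDD_eb π (eS ⊤ (Bl M ⊤ χ)) b) ∧ ¬ InM M (cc χ' (cls ⊤ b)) := by
    by_contra hcon
    push Not at hcon
    have h1 := ((hDCM Gb ⊤ M p h).1 χ' (ZDD_eb π (eS ⊤ (Bl M ⊤ χ)))
      (fun l _ x => ZDD_inv π hQ.sur _ hce l x) hint
      (fun y => IntAt.of_isIntegral h (cc_cls_int le_rfl hχ'T y))).2 (by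
        intro b
        by_cases hb : InM M (ZDD_eb π (eS ⊤ (Bl M ⊤ χ)) b)
        · exact Or.inl hb
        · exact Or.inr (hcon b hb))
    rw [hcc] at h1
    exact InM.not_one h h1
  obtain ⟨b, hb1, hb2⟩ := hex
  obtain ⟨-, s2, s3, -⟩ := hSYL p Gb
  obtain ⟨P, -, hPle, hPp, hPc⟩ := s2 ⊥ (Cz ⊤ b) (IsPGroup.of_bot) bot_le
  have hP' : IsPGroup p (P.comap π) := (((hKG1 p G Gb R₁ π hQ).2.2.1 P).2.2.1).1 hPp
  have hy : ∃ y ∈ cz (P.comap π), π y = b ∧ ¬ InM M ((eS ⊤ (Bl M ⊤ χ)) y) := by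
    by_contra hcon
    push Not at hcon
    have h1 := hCFX p M h G (P.comap π) hP' (fun y => if π y = b then (eS ⊤ (Bl M ⊤ χ)) y else 0)
      (by
        intro y
        split_ifs
        · exact b3 y
        · exact IntAt.zero h)
      (by
        intro r hr y
        rw [hce, map_mul, map_mul, map_inv]
        have hr' : π r * b = b * π r := by
          have := (mem_Cz.1 (hPle (Subgroup.mem_comap.1 hr))).2
          exact this.symm
        by_cases hy : π y = b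
        · rw [if_pos hy, if_pos (by rw [hy, hr', mul_inv_cancel_right])]
        · rw [if_neg hy, if_neg]
          intro hc
          apply hy
          have h2 : π r * π y = b * π r := by
            rw [← hc, inv_mul_cancel_right]
          rw [← hr'] at h2
          exact mul_left_cancel h2)
    apply hb1
    have h2 : InM M (∑ᶠ y ∈ (cz (P.comap π) : Set G), if π y = b then (eS ⊤ (Bl M ⊤ χ)) y else 0) := by
      apply InM.finsum_mem h
      intro y hy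
      split_ifs with hyb
      · exact hcon y hy hyb
      · exact InM.zero h
    have h3 := InM.add h h1 h2
    rw [sub_add_cancel] at h3
    exact h3
  obtain ⟨y, hy1, hy2, hy3⟩ := hy
  have hle : P.comap π ≤ Cz ⊤ y := by
    intro r hr
    refine mem_Cz.2 ⟨Subgroup.mem_top _, ?_⟩
    exact (Subgroup.mem_centralizer_iff.1 hy1 r hr).symm
  obtain ⟨l, -, hl⟩ := (hDUN p M h G ⊤ χ hχT D x hD).2.2 y (Subgroup.mem_top y) hy3 (P.comap π) hP' hle
  obtain ⟨l', -, hl'⟩ := (hDUN p M h Gb ⊤ χ' hχ'T D' x' hD').2.1 b (Subgroup.mem_top b) hb2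
  have hmp : IsPGroup p (D'.map (MulAut.conj l'⁻¹).toMonoidHom) := hD'.pg.map _
  have hml : D'.map (MulAut.conj l'⁻¹).toMonoidHom ≤ Cz ⊤ b := by
    rintro _ ⟨d, hd, rfl⟩
    have h1 := hl' d hd
    have h2 : (MulAut.conj l'⁻¹).toMonoidHom d = l'⁻¹ * d * l' := by
      change l'⁻¹ * d * l'⁻¹⁻¹ = _
      rw [inv_inv]
    rw [h2]
    exact h1
  obtain ⟨k, -, hk, -⟩ := s3 P (Cz ⊤ b) _ hPp hPle hPc hmp hml
  refine ⟨(π l)⁻¹ * k * l'⁻¹, fun d hd => ?_⟩
  have hk1 : k * (l'⁻¹ * d * l') * k⁻¹ ∈ P := by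
    apply hk
    refine ⟨d, hd, ?_⟩
    change l'⁻¹ * d * l'⁻¹⁻¹ = _
    rw [inv_inv]
  obtain ⟨c, hc⟩ := hQ.sur (k * (l'⁻¹ * d * l') * k⁻¹)
  refine ⟨l⁻¹ * c * l, hl c ?_, ?_⟩
  · rw [Subgroup.mem_comap, hc]
    exact hk1
  · rw [map_mul, map_mul, map_inv, hc]
    group

end Pool.Agent.ZB
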